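import Pool.Agent.Q41.HL.Main

/-! The Helly space does not embed into the space of scatteredly continuous functions on the
irrationals (nor on any Polish space). -/

set_option autoImplicit false

open Q41.HL

namespace Pool.Agent.Results.MP_36375e_gt.HellyDoesNotEmbed

/-- no continuous injective map of the Helly space into `ℝ^P` with the topology of pointwise
convergence has all its values in the set of scatteredly continuous functions -/
def NoInjection (P : Type) [TopologicalSpace P] : Prop :=
  ∀ Φ : Helly → (P → ℝ), Continuous Φ → Function.Injective Φ → ∃ h, ¬ SC (Φ h)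

theorem result :
    (¬ ∃ K : Set ((ℕ → ℕ) → ℝ), IsCompact K ∧ (∀ F ∈ K, SC F) ∧ Nonempty (K ≃ₜ Helly)) ∧
    ∀ (P : Type) [TopologicalSpace P] [PolishSpace P], NoInjection P := by
  have key : ∀ (P : Type) [TopologicalSpace P] [PolishSpace P], NoInjection P := by
    intro P _ _ Φ hΦ hinj
    borelize P
    by_contra hcon
    push Not at hcon
    obtain ⟨h, hh⟩ := not_all_SC (P := P) (φ := fun x h => Φ h x)
      (fun y => (continuous_apply y).comp hΦ) (fun h => sc_measurable (hcon h)) (by
        intro t h0 h1
        by_contra hne
        push Not at hne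
        exact el_ne h0.le h1.le (hinj (funext hne)))
    exact hh (hcon h)
  refine ⟨?_, key⟩
  rintro ⟨K, _, hSC, ⟨e⟩⟩
  obtain ⟨h, hh⟩ := key (ℕ → ℕ) (fun h => (e.symm h : (ℕ → ℕ) → ℝ))
    (continuous_subtype_val.comp e.symm.continuous)
    (fun a b hab => e.symm.injective (Subtype.ext hab))
  exact hh (hSC _ (e.symm h).2)

end Pool.Agent.Results.MP_36375e_gt.HellyDoesNotEmbed
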